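import Pool.Agent.Helper60.HB.Skel

set_option autoImplicit false

/-! # Module SCHW: Schwarz lemma with multiple zeros -/

namespace Pool.Agent.Helper60.HB

theorem schw_an {g : ℂ → ℂ} (hg : Differentiable ℂ g) (a : ℂ) : AnalyticAt ℂ g a := hg.analyticAt a

theorem schw_div1 (n : ℕ) (a : ℂ) : ∀ g : ℂ → ℂ, Differentiable ℂ g → (n : ℕ∞) ≤ analyticOrderAt g a →
    ∃ g' : ℂ → ℂ, Differentiable ℂ g' ∧ ∀ w, g w = (w - a) ^ n * g' w := by
  induction n with
  | zero => intro g hg _; exact ⟨g, hg, fun w => by simp⟩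
  | succ n ih =>
    intro g hg h
    have hga : g a = 0 := by
      apply apply_eq_zero_of_analyticOrderAt_ne_zero
      intro h0
      rw [h0] at h
      have h1 : ((n + 1 : ℕ) : ℕ∞) ≠ 0 := by exact_mod_cast Nat.succ_ne_zero n
      exact h1 (le_antisymm h (zero_le))
    have hg1 : Differentiable ℂ (dslope g a) := by
      rw [← differentiableOn_univ, Complex.differentiableOn_dslope Filter.univ_mem]
      exact hg.differentiableOn
    have hgw : ∀ w, g w = (w - a) * dslope g a w := by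
      intro w
      have h1 := sub_smul_dslope g a w
      rw [smul_eq_mul, hga, sub_zero] at h1
      exact h1.symm
    have hord : (n : ℕ∞) ≤ analyticOrderAt (dslope g a) a := by
      have e1 : g = (· - a) ^ 1 * dslope g a := by
        funext w
        rw [Pi.mul_apply, Pi.pow_apply, pow_one]
        exact hgw w
      have e2 : analyticOrderAt g a = 1 + analyticOrderAt (dslope g a) a := by
        have e3 : analyticOrderAt ((· - a) ^ 1 * dslope g a) a
            = analyticOrderAt ((· - a) ^ 1) a + analyticOrderAt (dslope g a) a :=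
          analyticOrderAt_mul (by fun_prop) (schw_an hg1 a)
        rw [← e1, analyticOrderAt_centeredMonomial] at e3
        simpa using e3
      rw [e2] at h
      cases hc : analyticOrderAt (dslope g a) a with
      | top => exact le_top
      | coe m =>
        rw [hc] at h
        have h' : ((n + 1 : ℕ) : ℕ∞) ≤ ((1 + m : ℕ) : ℕ∞) := by
          rw [Nat.cast_add 1 m, Nat.cast_one]; exact h
        rw [ENat.natCast_le_natCast] at h'
        rw [ENat.natCast_le_natCast]
        omega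
    obtain ⟨g', hg', h2⟩ := ih (dslope g a) hg1 hord
    refine ⟨g', hg', fun w => ?_⟩
    rw [hgw w, h2 w, pow_succ]
    ring

theorem schw_divs (τ : ℕ) (X : Finset ℤ) : ∀ f : ℂ → ℂ, Differentiable ℂ f →
    (∀ x ∈ X, (τ : ℕ∞) ≤ analyticOrderAt f (x : ℂ)) →
    ∃ g : ℂ → ℂ, Differentiable ℂ g ∧ ∀ w, f w = (∏ x ∈ X, (w - (x : ℂ)) ^ τ) * g w := by
  classical
  induction X using Finset.induction_on with
  | empty => intro f hf _; exact ⟨f, hf, fun w => by simp⟩
  | insert a X ha ih =>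
    intro f hf h
    obtain ⟨g, hg, hfg⟩ := ih f hf (fun x hx => h x (Finset.mem_insert_of_mem hx))
    have h0 : analyticOrderAt (fun w : ℂ => ∏ x ∈ X, (w - (x : ℂ)) ^ τ) (a : ℂ) = 0 := by
      rw [analyticOrderAt_eq_zero]
      right
      rw [Finset.prod_ne_zero_iff]
      intro x hx
      apply pow_ne_zero
      rw [sub_ne_zero]
      intro he
      have : a = x := by exact_mod_cast he
      exact ha (this ▸ hx)
    have hP : AnalyticAt ℂ (fun w : ℂ => ∏ x ∈ X, (w - (x : ℂ)) ^ τ) (a : ℂ) := by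
      have : Differentiable ℂ (fun w : ℂ => ∏ x ∈ X, (w - (x : ℂ)) ^ τ) := by fun_prop
      exact this.analyticAt _
    have e1 : f = (fun w : ℂ => ∏ x ∈ X, (w - (x : ℂ)) ^ τ) * g := by
      funext w
      exact hfg w
    have h1 := h a (Finset.mem_insert_self a X)
    rw [e1, analyticOrderAt_mul hP (schw_an hg _), h0, zero_add] at h1
    obtain ⟨g', hg', h2⟩ := schw_div1 τ (a : ℂ) g hg h1
    refine ⟨g', hg', fun w => ?_⟩
    rw [hfg w, h2 w, Finset.prod_insert ha]
    ring

theorem st_SCHW : ST_SCHW := by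
  intro f X τ ρ R M z0 hf hρ hR hX hz hM hz0
  have hord : ∀ x ∈ X, (τ : ℕ∞) ≤ analyticOrderAt f (x : ℂ) := fun x hx =>
    (natCast_le_analyticOrderAt_iff_iteratedDeriv_eq_zero (schw_an hf _)).2 (hz x hx)
  obtain ⟨g, hg, hfg⟩ := schw_divs τ X f hf hord
  have hRρ : 0 < R - ρ := by linarith
  have hRpos : 0 < R := by linarith
  -- bound for g on the circle
  have hgR : ∀ w ∈ frontier (Metric.ball (0 : ℂ) R), ‖g w‖ ≤ M / (R - ρ) ^ (X.card * τ) := by
    intro w hw
    rw [frontier_ball (0 : ℂ) hRpos.ne', mem_sphere_zero_iff_norm] at hw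
    have h1 := hM w hw
    rw [hfg w, norm_mul, norm_prod] at h1
    have h2 : (R - ρ) ^ (X.card * τ) ≤ ∏ x ∈ X, ‖(w - (x : ℂ)) ^ τ‖ := by
      have h3 : ∏ _x ∈ X, (R - ρ) ^ τ ≤ ∏ x ∈ X, ‖(w - (x : ℂ)) ^ τ‖ := by
        refine Finset.prod_le_prod (fun x _ => by positivity) (fun x hx => ?_)
        rw [norm_pow]
        refine pow_le_pow_left₀ hRρ.le ?_ τ
        have h4 := norm_sub_norm_le w (x : ℂ)
        have h5 : ‖(x : ℂ)‖ ≤ ρ := by
          rw [Complex.norm_intCast]; exact hX x hx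
        linarith
      rw [Finset.prod_const, ← pow_mul, mul_comm] at h3
      exact h3
    have hpos : 0 < (R - ρ) ^ (X.card * τ) := pow_pos hRρ _
    rw [le_div_iff₀ hpos]
    calc ‖g w‖ * (R - ρ) ^ (X.card * τ) ≤ ‖g w‖ * ∏ x ∈ X, ‖(w - (x : ℂ)) ^ τ‖ :=
          mul_le_mul_of_nonneg_left h2 (norm_nonneg _)
      _ ≤ M := by rw [mul_comm]; exact h1
  have hg0 : ‖g z0‖ ≤ M / (R - ρ) ^ (X.card * τ) := by
    refine Complex.norm_le_of_forall_mem_frontier_norm_le Metric.isBounded_ball hg.diffContOnCl hgR ?_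
    apply subset_closure
    rw [mem_ball_zero_iff]
    linarith
  rw [hfg z0, norm_mul, norm_prod]
  have h6 : ∏ x ∈ X, ‖(z0 - (x : ℂ)) ^ τ‖ ≤ (2 * ρ) ^ (X.card * τ) := by
    have h3 : ∏ x ∈ X, ‖(z0 - (x : ℂ)) ^ τ‖ ≤ ∏ _x ∈ X, (2 * ρ) ^ τ := by
      refine Finset.prod_le_prod (fun x _ => norm_nonneg _) (fun x hx => ?_)
      rw [norm_pow]
      refine pow_le_pow_left₀ (norm_nonneg _) ?_ τ
      have h4 := norm_sub_le z0 (x : ℂ)
      have h5 : ‖(x : ℂ)‖ ≤ ρ := by
        rw [Complex.norm_intCast]; exact hX x hx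
      linarith
    rw [Finset.prod_const, ← pow_mul, mul_comm τ] at h3
    exact h3
  calc (∏ x ∈ X, ‖(z0 - (x : ℂ)) ^ τ‖) * ‖g z0‖
      ≤ (2 * ρ) ^ (X.card * τ) * (M / (R - ρ) ^ (X.card * τ)) :=
        mul_le_mul h6 hg0 (norm_nonneg _) (by positivity)
    _ = M * (2 * ρ / (R - ρ)) ^ (X.card * τ) := by
        rw [div_pow]
        ring

end Pool.Agent.Helper60.HB
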