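import Pool.Agent.Helper60.HB.Skel

set_option autoImplicit false

/-! # Module SIEG: Siegel lemma by the pigeonhole principle -/

namespace Pool.Agent.Helper60.HB

theorem sieg_zero {K : Type} [Field K] [NumberField K] (x : K) (hx : IsIntegral ℤ x)
    (h : ∀ τ : K →+* ℂ, ‖τ x‖ < 1) : x = 0 := by
  classical
  by_contra hne
  have h1 := Algebra.norm_eq_prod_embeddings ℚ ℂ x
  have h2 : IsIntegral ℤ (Algebra.norm ℚ x) := Algebra.isIntegral_norm ℚ hx
  obtain ⟨n, hn⟩ := IsIntegrallyClosed.isIntegral_iff.1 h2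
  have h3 : ‖(algebraMap ℚ ℂ) (Algebra.norm ℚ x)‖ < 1 := by
    rw [h1, norm_prod]
    have h4 : ∏ σ : K →ₐ[ℚ] ℂ, ‖σ x‖ < ∏ _σ : K →ₐ[ℚ] ℂ, (1 : ℝ) := by
      apply Finset.prod_lt_prod_of_nonempty
      · intro σ _
        rw [norm_pos_iff]
        intro h0
        exact hne ((map_eq_zero σ).1 h0)
      · intro σ _
        exact h (σ : K →+* ℂ)
      · have : Nonempty (K →ₐ[ℚ] ℂ) := ⟨(IsAlgClosed.lift : K →ₐ[ℚ] ℂ)⟩
        exact Finset.univ_nonempty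
    rwa [Finset.prod_const_one] at h4
  rw [← hn] at h3
  have h5 : (algebraMap ℚ ℂ) (algebraMap ℤ ℚ n) = (n : ℂ) := by simp
  rw [h5, Complex.norm_intCast] at h3
  have h6 : n = 0 := by
    have : |n| < 1 := by exact_mod_cast h3
    exact Int.abs_lt_one_iff.1 this
  rw [h6, map_zero] at hn
  exact hne (Algebra.norm_eq_zero_iff.1 hn.symm)

theorem sieg_cell {a b B : ℝ} (h : ⌊2 * a + 2 * B⌋₊ = ⌊2 * b + 2 * B⌋₊) (ha : |a| ≤ B) (hb : |b| ≤ B) :
    |a - b| < 1 / 2 := by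
  rw [abs_le] at ha hb
  have h1 := Nat.floor_le (show 0 ≤ 2 * a + 2 * B by linarith)
  have h2 := Nat.lt_floor_add_one (2 * a + 2 * B)
  have h3 := Nat.floor_le (show 0 ≤ 2 * b + 2 * B by linarith)
  have h4 := Nat.lt_floor_add_one (2 * b + 2 * B)
  rw [h] at h1 h2
  rw [abs_lt]
  constructor <;> linarith

theorem sieg_norm {z : ℂ} (h1 : |z.re| < 1 / 2) (h2 : |z.im| < 1 / 2) : ‖z‖ < 1 := by
  have h3 := Complex.norm_le_abs_re_add_abs_im z
  linarith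

theorem st_SIEG : ST_SIEG := by
  classical
  intro K _ _ ι κ Λ E y Q V hQ hV hint hbd hcard hΛ
  obtain ⟨N, hN⟩ : ∃ N : ℕ, N = Λ.card := ⟨_, rfl⟩
  obtain ⟨P, hP⟩ : ∃ P : ℕ, P = ⌈6 * (N : ℝ) * V⌉₊ := ⟨_, rfl⟩
  have hN1 : (1 : ℝ) ≤ N := by rw [hN]; exact_mod_cast hΛ
  have hNV : (1 : ℝ) ≤ N * V := by nlinarith
  have hP1 : 6 * (N : ℝ) * V ≤ P := by rw [hP]; exact Nat.le_ceil _
  have hP2 : (P : ℝ) ≤ 7 * N * V := by
    have := Nat.ceil_lt_add_one (show 0 ≤ 6 * (N : ℝ) * V by nlinarith)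
    rw [← hP] at this
    nlinarith
  have hPpos : (6 : ℝ) ≤ P := by nlinarith
  obtain ⟨B, hB⟩ : ∃ B : ℝ, B = N * P * V := ⟨_, rfl⟩
  have hBP : 4 * B < (P : ℝ) ^ 2 := by
    rw [hB]
    have : (0 : ℝ) < P * (N * V) := by positivity
    nlinarith
  let val : (Λ → Fin (P + 1)) → E → K := fun p e => ∑ i : Λ, ((p i : ℕ) : K) * ((Q : K) * y e i)
  have hval : ∀ p e (τ : K →+* ℂ), ‖τ (val p e)‖ ≤ B := by
    intro p e τ
    have h1 : τ (val p e) = ∑ i : Λ, ((p i : ℕ) : ℂ) * τ ((Q : K) * y e i) := by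
      simp only [val, map_sum, map_mul, map_natCast]
    rw [h1]
    calc ‖∑ i : Λ, ((p i : ℕ) : ℂ) * τ ((Q : K) * y e i)‖
        ≤ ∑ i : Λ, ‖((p i : ℕ) : ℂ) * τ ((Q : K) * y e i)‖ := norm_sum_le _ _
      _ ≤ ∑ _i : Λ, (P : ℝ) * V := by
          refine Finset.sum_le_sum fun i _ => ?_
          rw [norm_mul, Complex.norm_natCast]
          refine mul_le_mul ?_ (hbd e e.2 i i.2 τ) (norm_nonneg _) (by positivity)
          have := Nat.lt_succ_iff.1 (p i).2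
          exact_mod_cast this
      _ = B := by
          rw [Finset.sum_const, Finset.card_univ, Fintype.card_coe, nsmul_eq_mul, ← hN, hB]
          ring
  have hre : ∀ p e (τ : K →+* ℂ), |(τ (val p e)).re| ≤ B := fun p e τ =>
    (Complex.abs_re_le_norm _).trans (hval p e τ)
  have him : ∀ p e (τ : K →+* ℂ), |(τ (val p e)).im| ≤ B := fun p e τ =>
    (Complex.abs_im_le_norm _).trans (hval p e τ)
  have hcell : ∀ a : ℝ, |a| ≤ B → ⌊2 * a + 2 * B⌋₊ < P ^ 2 := by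
    intro a ha
    rw [abs_le] at ha
    have h1 := Nat.floor_le (show 0 ≤ 2 * a + 2 * B by linarith)
    have h2 : ((⌊2 * a + 2 * B⌋₊ : ℕ) : ℝ) < ((P ^ 2 : ℕ) : ℝ) := by
      push_cast
      linarith
    exact_mod_cast h2
  let F : (Λ → Fin (P + 1)) → (E × (K →+* ℂ) → Fin (P ^ 2) × Fin (P ^ 2)) := fun p q =>
    (⟨⌊2 * (q.2 (val p q.1)).re + 2 * B⌋₊, hcell _ (hre p q.1 q.2)⟩,
      ⟨⌊2 * (q.2 (val p q.1)).im + 2 * B⌋₊, hcell _ (him p q.1 q.2)⟩)
  have hPn : 1 ≤ P := by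
    have : (1 : ℝ) ≤ P := by linarith
    exact_mod_cast this
  have hcards : Fintype.card (E × (K →+* ℂ) → Fin (P ^ 2) × Fin (P ^ 2)) < Fintype.card (Λ → Fin (P + 1)) := by
    rw [Fintype.card_fun, Fintype.card_fun, Fintype.card_prod, Fintype.card_prod, Fintype.card_fin,
      Fintype.card_fin, Fintype.card_coe, Fintype.card_coe, NumberField.Embeddings.card]
    have e1 : P ^ 2 * P ^ 2 = P ^ 4 := by ring
    rw [e1, ← pow_mul]
    calc P ^ (4 * (E.card * Module.finrank ℚ K)) ≤ P ^ Λ.card := by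
          apply Nat.pow_le_pow_right hPn
          calc 4 * (E.card * Module.finrank ℚ K) = 4 * Module.finrank ℚ K * E.card := by ring
            _ ≤ Λ.card := hcard
      _ < (P + 1) ^ Λ.card := Nat.pow_lt_pow_left (Nat.lt_succ_self P) hΛ.ne'
  obtain ⟨p, p', hne, hF⟩ := Fintype.exists_ne_map_eq_of_card_lt F hcards
  refine ⟨fun i => if h : i ∈ Λ then ((p ⟨i, h⟩ : ℕ) : ℤ) - ((p' ⟨i, h⟩ : ℕ) : ℤ) else 0, ?_, ?_, ?_⟩
  · by_contra hcon
    push Not at hcon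
    apply hne
    funext i
    have h1 := hcon i i.2
    rw [dif_pos i.2] at h1
    have h2 : (p ⟨i, i.2⟩ : ℕ) = (p' ⟨i, i.2⟩ : ℕ) := by omega
    exact Fin.ext h2
  · intro i
    by_cases h : i ∈ Λ
    · simp only [dif_pos h]
      have h1 := (p ⟨i, h⟩).2
      have h2 := (p' ⟨i, h⟩).2
      have h3 : |(((p ⟨i, h⟩ : ℕ) : ℤ) - ((p' ⟨i, h⟩ : ℕ) : ℤ))| ≤ (P : ℤ) := by
        rw [abs_le]
        constructor <;> omega
      have h4 : |((((p ⟨i, h⟩ : ℕ) : ℤ) - ((p' ⟨i, h⟩ : ℕ) : ℤ) : ℤ) : ℝ)| ≤ (P : ℝ) := by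
        rw [← Int.cast_abs]
        exact_mod_cast h3
      rw [← hN]
      linarith
    · simp only [dif_neg h, Int.cast_zero, abs_zero]
      rw [← hN]
      nlinarith
  · intro e he
    obtain ⟨s, hs⟩ : ∃ s : K, s = ∑ i ∈ Λ,
        (((if h : i ∈ Λ then ((p ⟨i, h⟩ : ℕ) : ℤ) - ((p' ⟨i, h⟩ : ℕ) : ℤ) else 0 : ℤ)) : K) * y e i := ⟨_, rfl⟩
    rw [← hs]
    have h1 : (Q : K) * s = val p ⟨e, he⟩ - val p' ⟨e, he⟩ := by
      rw [hs, ← Finset.sum_coe_sort Λ, Finset.mul_sum]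
      simp only [val]
      rw [← Finset.sum_sub_distrib]
      refine Finset.sum_congr rfl fun i _ => ?_
      rw [dif_pos i.2]
      push_cast
      ring
    have h2 : IsIntegral ℤ ((Q : K) * s) := by
      rw [h1]
      refine IsIntegral.sub ?_ ?_ <;>
      · refine IsIntegral.sum _ fun i _ => ?_
        refine IsIntegral.mul ?_ (hint e he i i.2)
        exact isIntegral_natCast _
    have h3 : (Q : K) * s = 0 := by
      refine sieg_zero _ h2 fun τ => ?_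
      rw [h1, map_sub]
      have h4 := congrFun hF (⟨e, he⟩, τ)
      have h5 := congrArg (fun q => (q.1 : ℕ)) h4
      have h6 := congrArg (fun q => (q.2 : ℕ)) h4
      apply sieg_norm
      · rw [Complex.sub_re]
        exact sieg_cell h5 (hre p ⟨e, he⟩ τ) (hre p' ⟨e, he⟩ τ)
      · rw [Complex.sub_im]
        exact sieg_cell h6 (him p ⟨e, he⟩ τ) (him p' ⟨e, he⟩ τ)
    rcases mul_eq_zero.1 h3 with h4 | h4
    · exfalso
      have : (Q : K) ≠ 0 := by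
        have : Q ≠ 0 := by omega
        exact_mod_cast this
      exact this h4
    · exact h4

end Pool.Agent.Helper60.HB
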